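import Pool.Agent.Helper53.PT.GoalsA
import Pool.Agent.Helper88.NO.D12

/-! # Packet PT-CX (MP_705522_gt): convex order of the laws -/

set_option autoImplicit false

noncomputable section

namespace Pool.Agent.Helper93.PT

open MeasureTheory Set Filter Topology
open Pool.Agent.Helper28.NO (mu muZ ph)
open Pool.Agent.Helper7.Proj (Zd)
open Pool.Agent.Helper88.NO
open Pool.Agent.Helper53.Pq
open Pool.Agent.Helper53.PT

theorem chord {S : Set ℝ} {f : ℝ → ℝ} (hf : ConvexOn ℝ S f) {x y z : ℝ} (hx : x ∈ S)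
    (hz : z ∈ S) (hxy : x < y) (hyz : y < z) :
    (z - x) * f y ≤ (z - y) * f x + (y - x) * f z := by
  have h := hf.slope_mono_adjacent hx hz hxy hyz
  rw [div_le_div_iff₀ (by linarith) (by linarith)] at h
  linarith

theorem signs {S : Set ℝ} {f : ℝ → ℝ} (hf : ConvexOn ℝ S f) {v1 v2 : ℝ} (h12 : v1 < v2)
    (h1 : v1 ∈ S) (h2 : v2 ∈ S) (e1 : f v1 = 0) (e2 : f v2 = 0) :
    (∀ x ∈ S, x ≤ v1 → 0 ≤ f x) ∧ (∀ x, v1 ≤ x → x ≤ v2 → f x ≤ 0) ∧
    (∀ x ∈ S, v2 ≤ x → 0 ≤ f x) := by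
  refine ⟨fun x hx h => ?_, fun x h h' => ?_, fun x hx h => ?_⟩
  · rcases h.eq_or_lt with rfl | h
    · exact e1.ge
    · have c := chord hf hx h2 h h12
      rw [e1, e2, mul_zero, mul_zero, add_zero] at c
      exact nonneg_of_mul_nonneg_right c (by linarith)
  · rcases h.eq_or_lt with rfl | h
    · exact e1.le
    · rcases h'.eq_or_lt with rfl | h'
      · exact e2.le
      · have c := chord hf h1 h2 h h'
        rw [e1, e2, mul_zero, mul_zero, add_zero] at c
        by_contra hc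
        push Not at hc
        have : 0 < (v2 - v1) * f x := mul_pos (by linarith) hc
        linarith
  · rcases h.eq_or_lt with rfl | h
    · exact e2.ge
    · have c := chord hf h1 hx h12 h
      rw [e1, e2, mul_zero, mul_zero, zero_add] at c
      exact nonneg_of_mul_nonneg_right c (by linarith)

/-- the log of the quotient of the densities, as a function of `v = y^q'` -/
def R (C κ a p a' v : ℝ) : ℝ := C - κ * Real.log v + a * v ^ p - a' * v

theorem R_convex {C κ a p a' : ℝ} (hκ : 0 < κ) (ha : 0 < a) (hp : 1 ≤ p) :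
    ConvexOn ℝ (Ioi 0) (R C κ a p a') := by
  have h1 : ConvexOn ℝ (Ioi (0 : ℝ)) (fun v => κ • (-Real.log v)) :=
    (strictConcaveOn_log_Ioi.concaveOn.neg).smul hκ.le
  have h2 : ConvexOn ℝ (Ioi (0 : ℝ)) (fun v => a • v ^ p) :=
    ((convexOn_rpow hp).subset Ioi_subset_Ici_self (convex_Ioi 0)).smul ha.le
  refine ⟨convex_Ioi 0, fun x hx y hy s t hs ht hst => ?_⟩
  have e1 := h1.2 hx hy hs ht hst
  have e2 := h2.2 hx hy hs ht hst
  simp only [smul_eq_mul] at e1 e2 ⊢
  unfold R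
  have e3 : C = s * C + t * C := by rw [← add_mul, hst, one_mul]
  linarith

theorem R_cont {C κ a p a' : ℝ} (hp : 1 ≤ p) : ContinuousOn (R C κ a p a') (Ioi 0) := by
  unfold R
  have h1 : ContinuousOn (fun v : ℝ => Real.log v) (Ioi 0) :=
    Real.continuousOn_log.mono fun x hx => ne_of_gt hx
  have h2 : Continuous (fun v : ℝ => v ^ p) := Real.continuous_rpow_const (by linarith)
  exact ((continuousOn_const.sub (continuousOn_const.mul h1)).add
    (continuousOn_const.mul h2.continuousOn)).sub (continuousOn_const.mul continuousOn_id)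

theorem R_small {C κ a p a' v0 : ℝ} (hκ : 0 < κ) (ha : 0 < a) (ha' : 0 < a') (hv0 : 0 < v0) :
    ∃ v, 0 < v ∧ v < v0 ∧ 0 ≤ R C κ a p a' v := by
  set v := min (v0 / 2) (min 1 (Real.exp ((C - a') / κ))) with hv
  have hv1 : 0 < v := by
    rw [hv]
    exact lt_min (by linarith) (lt_min one_pos (Real.exp_pos _))
  refine ⟨v, hv1, lt_of_le_of_lt (min_le_left _ _) (by linarith), ?_⟩
  have h1 : v ≤ 1 := (min_le_right _ _).trans (min_le_left _ _)
  have h2 : v ≤ Real.exp ((C - a') / κ) := (min_le_right _ _).trans (min_le_right _ _)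
  have h3 : Real.log v ≤ (C - a') / κ := by
    rw [← Real.log_exp ((C - a') / κ)]
    exact Real.log_le_log hv1 h2
  have h4 : κ * Real.log v ≤ C - a' := by
    have := mul_le_mul_of_nonneg_left h3 hκ.le
    rwa [mul_div_cancel₀ _ hκ.ne'] at this
  have h5 : 0 ≤ a * v ^ p := mul_nonneg ha.le (Real.rpow_nonneg hv1.le _)
  have h6 : a' * v ≤ a' := by nlinarith
  unfold R
  linarith

theorem R_large {C κ a p a' : ℝ} (ha : 0 < a) (hp : 1 < p) :
    ∀ᶠ v in atTop, 0 ≤ R C κ a p a' v := by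
  have h1 : Tendsto (fun v : ℝ => Real.log v / v ^ p) atTop (𝓝 0) :=
    (isLittleO_log_rpow_atTop (by linarith : 0 < p)).tendsto_div_nhds_zero
  have h2 : Tendsto (fun v : ℝ => v ^ (-(p - 1))) atTop (𝓝 0) :=
    tendsto_rpow_neg_atTop (by linarith)
  have h3 : Tendsto (fun v : ℝ => v ^ (-p)) atTop (𝓝 0) := tendsto_rpow_neg_atTop (by linarith)
  have h4 : Tendsto (fun v : ℝ => C * v ^ (-p) - κ * (Real.log v / v ^ p) + a
      - a' * v ^ (-(p - 1))) atTop (𝓝 (C * 0 - κ * 0 + a - a' * 0)) :=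
    (((h3.const_mul C).sub (h1.const_mul κ)).add_const a).sub (h2.const_mul a')
  have h5 : C * 0 - κ * 0 + a - a' * 0 = a := by ring
  rw [h5] at h4
  filter_upwards [h4.eventually (eventually_gt_nhds ha), eventually_gt_atTop 0] with v hv hv0
  have e : R C κ a p a' v = v ^ p * (C * v ^ (-p) - κ * (Real.log v / v ^ p) + a
      - a' * v ^ (-(p - 1))) := by
    have hp0 : v ^ p ≠ 0 := (Real.rpow_pos_of_pos hv0 p).ne'
    have e1 : v ^ (-p) = (v ^ p)⁻¹ := Real.rpow_neg hv0.le p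
    have e2 : v ^ (-(p - 1)) = v * (v ^ p)⁻¹ := by
      rw [← e1]
      nth_rewrite 2 [← Real.rpow_one v]
      rw [← Real.rpow_add hv0]
      congr 1
      ring
    rw [e1, e2]
    unfold R
    field_simp
  rw [e]
  exact mul_nonneg (Real.rpow_nonneg hv0.le _) hv.le

/-- sign pattern of `R` -/
theorem R_pat {C κ a p a' : ℝ} (hκ : 0 < κ) (ha : 0 < a) (ha' : 0 < a') (hp : 1 < p) :
    (∀ v, 0 < v → 0 ≤ R C κ a p a' v) ∨
    ∃ v1 v2, 0 < v1 ∧ v1 < v2 ∧ R C κ a p a' v1 = 0 ∧ R C κ a p a' v2 = 0 := by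
  by_cases h : ∀ v, 0 < v → 0 ≤ R C κ a p a' v
  · exact Or.inl h
  right
  push Not at h
  obtain ⟨v0, hv0, hR0⟩ := h
  obtain ⟨u, hu, huv, hRu⟩ := R_small (C := C) (p := p) hκ ha ha' hv0
  obtain ⟨w, hRw, hwv⟩ := ((R_large (C := C) (κ := κ) (a' := a') ha hp).and
    (eventually_gt_atTop v0)).exists
  have hc1 : ContinuousOn (R C κ a p a') (Icc u v0) :=
    (R_cont hp.le).mono fun x hx => hu.trans_le hx.1
  have hc2 : ContinuousOn (R C κ a p a') (Icc v0 w) :=
    (R_cont hp.le).mono fun x hx => hv0.trans_le hx.1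
  obtain ⟨v1, hv1, e1⟩ := intermediate_value_Icc' huv.le hc1 ⟨hR0.le, hRu⟩
  obtain ⟨v2, hv2, e2⟩ := intermediate_value_Icc hwv.le hc2 ⟨hR0.le, hRw⟩
  refine ⟨v1, v2, hu.trans_le hv1.1, ?_, e1, e2⟩
  refine lt_of_le_of_ne (hv1.2.trans hv2.1) ?_
  rintro rfl
  have : v1 = v0 := le_antisymm hv1.2 hv2.1
  rw [this] at e1
  linarith

/-- the density -/
def gd (q c a y : ℝ) : ℝ := c * (y ^ (q - 2) * Real.exp (-a * y ^ q))

theorem gd_pos {q c a y : ℝ} (hc : 0 < c) (hy : 0 < y) : 0 < gd q c a y :=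
  mul_pos hc (mul_pos (Real.rpow_pos_of_pos hy _) (Real.exp_pos _))

theorem log_gd {q c a y : ℝ} (hc : 0 < c) (hy : 0 < y) :
    Real.log (gd q c a y) = Real.log c + (q - 2) * Real.log y - a * y ^ q := by
  have h1 : y ^ (q - 2) ≠ 0 := (Real.rpow_pos_of_pos hy _).ne'
  unfold gd
  rw [Real.log_mul hc.ne' (mul_ne_zero h1 (Real.exp_pos _).ne'), Real.log_mul h1
    (Real.exp_pos _).ne', Real.log_exp, Real.log_rpow hy]
  ring

theorem gd_meas (q c a : ℝ) : Measurable (gd q c a) := by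
  unfold gd
  fun_prop

/-- integrability of the moments -/
theorem gd_int {q c a : ℝ} (hq : 2 < q) (ha : 0 < a) (k : ℕ) :
    IntegrableOn (fun y => gd q c a y * y ^ k) (Ioi 0) := by
  have hk : (0 : ℝ) ≤ k := Nat.cast_nonneg k
  have h1 : IntegrableOn (fun y : ℝ => y ^ (q - 2 + k) * Real.exp (-a * y ^ q)) (Ioi 0) :=
    integrableOn_rpow_mul_exp_neg_mul_rpow (by linarith) (by linarith) ha
  refine IntegrableOn.congr_fun (h1.const_mul c) (fun y hy => ?_) measurableSet_Ioi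
  have hy0 : 0 < y := hy
  unfold gd
  rw [Real.rpow_add hy0, Real.rpow_natCast]
  ring

theorem gd_int_H {q c a : ℝ} (hq : 2 < q) (hc : 0 < c) (ha : 0 < a) {H : ℝ → ℝ}
    (hH : ContinuousOn H (Ici 0)) (hb : ∃ (C : ℝ) (N : ℕ), ∀ s, 0 ≤ s → |H s| ≤ C * (1 + s) ^ N) :
    IntegrableOn (fun y => gd q c a y * H (y ^ 2)) (Ioi 0) := by
  obtain ⟨C, N, hC⟩ := hb
  have hcont : Continuous (fun y : ℝ => H (y ^ 2)) := by
    have := hH.comp_continuous (continuous_pow 2 : Continuous fun y : ℝ => y ^ 2)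
      (fun y => sq_nonneg y)
    exact this
  have h1 : IntegrableOn (fun y => (|C| * 2 ^ (N - 1)) * (gd q c a y * y ^ 0
      + gd q c a y * y ^ (2 * N))) (Ioi 0) :=
    ((gd_int hq ha 0).add (gd_int hq ha (2 * N))).const_mul _
  refine Integrable.mono' h1 ((gd_meas q c a).mul hcont.measurable).aestronglyMeasurable ?_
  filter_upwards [ae_restrict_mem measurableSet_Ioi] with y hy
  have hy0 : 0 < y := hy
  have hg := (gd_pos (q := q) (a := a) hc hy0).le
  rw [Real.norm_eq_abs, abs_mul, abs_of_nonneg hg]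
  have h2 := hC (y ^ 2) (sq_nonneg y)
  have h3 : (1 + y ^ 2) ^ N ≤ 2 ^ (N - 1) * (1 ^ N + (y ^ 2) ^ N) :=
    add_pow_le zero_le_one (sq_nonneg y) N
  rw [one_pow, ← pow_mul] at h3
  have h4 : |H (y ^ 2)| ≤ |C| * (2 ^ (N - 1) * (1 + y ^ (2 * N))) := by
    refine h2.trans ?_
    refine (mul_le_mul_of_nonneg_right (le_abs_self C) (by positivity)).trans ?_
    exact mul_le_mul_of_nonneg_left h3 (abs_nonneg C)
  calc gd q c a y * |H (y ^ 2)| ≤ gd q c a y * (|C| * (2 ^ (N - 1) * (1 + y ^ (2 * N)))) :=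
        mul_le_mul_of_nonneg_left h4 hg
    _ = _ := by ring

/-- the abstract comparison -/
theorem cmp {q q' c c' a a' : ℝ} (hq' : 2 < q') (hqq : q' < q) (hc : 0 < c) (hc' : 0 < c')
    (ha : 0 < a) (ha' : 0 < a')
    (m0 : ∫ y in Ioi (0 : ℝ), gd q c a y = 1) (m0' : ∫ y in Ioi (0 : ℝ), gd q' c' a' y = 1)
    (m2 : ∫ y in Ioi (0 : ℝ), gd q c a y * y ^ 2 = 1)
    (m2' : ∫ y in Ioi (0 : ℝ), gd q' c' a' y * y ^ 2 = 1) {H : ℝ → ℝ}
    (hconv : ConvexOn ℝ (Ici 0) H)
    (hH : ContinuousOn H (Ici 0)) (hb : ∃ (C : ℝ) (N : ℕ), ∀ s, 0 ≤ s → |H s| ≤ C * (1 + s) ^ N) :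
    ∫ y in Ioi (0 : ℝ), gd q c a y * H (y ^ 2) ≤ ∫ y in Ioi (0 : ℝ), gd q' c' a' y * H (y ^ 2) := by
  have hq'0 : 0 < q' := by linarith
  have hq : 2 < q := by linarith
  set C := Real.log c' - Real.log c with hC
  set κ := (q - q') / q' with hκ
  set p := q / q' with hp
  have hκ0 : 0 < κ := div_pos (by linarith) hq'0
  have hp1 : 1 < p := by
    rw [hp, lt_div_iff₀ hq'0]
    linarith
  have hR : ∀ y, 0 < y → R C κ a p a' (y ^ q') =
      Real.log (gd q' c' a' y) - Real.log (gd q c a y) := by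
    intro y hy
    rw [log_gd hc hy, log_gd hc' hy, R, Real.log_rpow hy, ← Real.rpow_mul hy.le]
    have e1 : q' * p = q := by
      rw [hp]
      field_simp
    have e2 : κ * (q' * Real.log y) = (q - q') * Real.log y := by
      rw [hκ]
      field_simp
    rw [e1, e2]
    ring
  have hsg1 : ∀ y, 0 < y → 0 ≤ R C κ a p a' (y ^ q') → gd q c a y ≤ gd q' c' a' y := by
    intro y hy h
    rw [hR y hy] at h
    exact (Real.log_le_log_iff (gd_pos hc hy) (gd_pos hc' hy)).1 (by linarith)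
  have hsg2 : ∀ y, 0 < y → R C κ a p a' (y ^ q') ≤ 0 → gd q' c' a' y ≤ gd q c a y := by
    intro y hy h
    rw [hR y hy] at h
    exact (Real.log_le_log_iff (gd_pos hc' hy) (gd_pos hc hy)).1 (by linarith)
  have i0 : IntegrableOn (gd q c a) (Ioi 0) := by
    have := gd_int (c := c) hq ha 0
    simpa using this
  have i0' : IntegrableOn (gd q' c' a') (Ioi 0) := by
    have := gd_int (c := c') hq' ha' 0
    simpa using this
  have i2 := gd_int (c := c) hq ha 2
  have i2' := gd_int (c := c') hq' ha' 2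
  have iH := gd_int_H hq hc ha hH hb
  have iH' := gd_int_H hq' hc' ha' hH hb
  rcases R_pat (C := C) (p := p) hκ0 ha ha' hp1 with h | ⟨v1, v2, hv1, hv12, e1, e2⟩
  · -- the densities coincide
    have hD : 0 ≤ᵐ[volume.restrict (Ioi (0 : ℝ))] fun y => gd q' c' a' y - gd q c a y := by
      filter_upwards [ae_restrict_mem measurableSet_Ioi] with y hy
      have hy0 : 0 < y := hy
      have := hsg1 y hy0 (h _ (Real.rpow_pos_of_pos hy0 _))
      simp only [Pi.zero_apply]
      linarith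
    have hI : ∫ y in Ioi (0 : ℝ), (gd q' c' a' y - gd q c a y) = 0 := by
      rw [integral_sub i0' i0, m0, m0', sub_self]
    have hz := (integral_eq_zero_iff_of_nonneg_ae hD (i0'.sub i0)).1 hI
    refine (integral_congr_ae ?_).le
    filter_upwards [hz] with y hy
    simp only [Pi.zero_apply] at hy
    have : gd q' c' a' y = gd q c a y := by linarith
    rw [this]
  · -- two crossings
    have hv2 : 0 < v2 := hv1.trans hv12
    obtain ⟨s1, s2, s3⟩ := signs (R_convex (C := C) (a' := a') hκ0 ha hp1.le) hv12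
      (mem_Ioi.2 hv1) (mem_Ioi.2 hv2) e1 e2
    set y1 := v1 ^ (1 / q') with hy1
    set y2 := v2 ^ (1 / q') with hy2
    have hy10 : 0 < y1 := Real.rpow_pos_of_pos hv1 _
    have hy20 : 0 < y2 := Real.rpow_pos_of_pos hv2 _
    have hy12 : y1 < y2 := Real.rpow_lt_rpow hv1.le hv12 (by positivity)
    have k1 : y1 ^ q' = v1 := by
      rw [hy1, ← Real.rpow_mul hv1.le, one_div, inv_mul_cancel₀ hq'0.ne', Real.rpow_one]
    have k2 : y2 ^ q' = v2 := by
      rw [hy2, ← Real.rpow_mul hv2.le, one_div, inv_mul_cancel₀ hq'0.ne', Real.rpow_one]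
    set b1 := y1 ^ 2 with hb1
    set b2 := y2 ^ 2 with hb2
    have hb12 : b1 < b2 := by
      rw [hb1, hb2]
      exact pow_lt_pow_left₀ hy12 hy10.le two_ne_zero
    set m := (H b2 - H b1) / (b2 - b1) with hm
    have hmm : m * (b2 - b1) = H b2 - H b1 := by
      rw [hm]
      exact div_mul_cancel₀ _ (by linarith)
    set Λ : ℝ → ℝ := fun x => H x - (H b1 + m * (x - b1)) with hΛ
    have hΛc : ConvexOn ℝ (Ici 0) Λ := by
      refine ⟨convex_Ici 0, fun x hx y hy s t hs ht hst => ?_⟩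
      have e := hconv.2 hx hy hs ht hst
      simp only [smul_eq_mul, hΛ] at e ⊢
      have e3 : H b1 - m * b1 = s * (H b1 - m * b1) + t * (H b1 - m * b1) := by
        rw [← add_mul, hst, one_mul]
      linarith
    obtain ⟨t1, t2, t3⟩ := signs hΛc hb12 (mem_Ici.2 (by positivity)) (mem_Ici.2 (by positivity))
      (by simp only [hΛ]; ring) (by simp only [hΛ]; linarith)
    have hpt : ∀ y, 0 < y → 0 ≤ (gd q' c' a' y - gd q c a y) * Λ (y ^ 2) := by
      intro y hy
      rcases le_total y y1 with h | h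
      · have r1 : y ^ q' ≤ v1 := by
          rw [← k1]
          exact Real.rpow_le_rpow hy.le h hq'0.le
        have r2 := hsg1 y hy (s1 _ (Real.rpow_pos_of_pos hy _) r1)
        have r3 := t1 (y ^ 2) (mem_Ici.2 (sq_nonneg y)) (pow_le_pow_left₀ hy.le h 2)
        exact mul_nonneg (by linarith) r3
      · rcases le_total y y2 with h' | h'
        · have r1 : v1 ≤ y ^ q' := by
            rw [← k1]
            exact Real.rpow_le_rpow hy10.le h hq'0.le
          have r1' : y ^ q' ≤ v2 := by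
            rw [← k2]
            exact Real.rpow_le_rpow hy.le h' hq'0.le
          have r2 := hsg2 y hy (s2 _ r1 r1')
          have r3 := t2 (y ^ 2) (pow_le_pow_left₀ hy10.le h 2) (pow_le_pow_left₀ hy.le h' 2)
          exact mul_nonneg_of_nonpos_of_nonpos (by linarith) r3
        · have r1 : v2 ≤ y ^ q' := by
            rw [← k2]
            exact Real.rpow_le_rpow hy20.le h' hq'0.le
          have r2 := hsg1 y hy (s3 _ (Real.rpow_pos_of_pos hy _) r1)
          have r3 := t3 (y ^ 2) (mem_Ici.2 (sq_nonneg y)) (pow_le_pow_left₀ hy20.le h' 2)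
          exact mul_nonneg (by linarith) r3
    have hint : 0 ≤ ∫ y in Ioi (0 : ℝ), (gd q' c' a' y - gd q c a y) * Λ (y ^ 2) :=
      setIntegral_nonneg measurableSet_Ioi fun y hy => hpt y hy
    have hexp : ∀ y, (gd q' c' a' y - gd q c a y) * Λ (y ^ 2) =
        (gd q' c' a' y * H (y ^ 2) - gd q c a y * H (y ^ 2)) -
          ((H b1 - m * b1) * (gd q' c' a' y - gd q c a y) +
            m * (gd q' c' a' y * y ^ 2 - gd q c a y * y ^ 2)) := by
      intro y
      simp only [hΛ]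
      ring
    simp only [hexp] at hint
    have j0 : IntegrableOn (fun y => gd q' c' a' y - gd q c a y) (Ioi 0) := i0'.sub i0
    have j2 : IntegrableOn (fun y => gd q' c' a' y * y ^ 2 - gd q c a y * y ^ 2) (Ioi 0) :=
      i2'.sub i2
    have jH : IntegrableOn (fun y => gd q' c' a' y * H (y ^ 2) - gd q c a y * H (y ^ 2)) (Ioi 0) :=
      iH'.sub iH
    have k0 : IntegrableOn (fun y => (H b1 - m * b1) * (gd q' c' a' y - gd q c a y)) (Ioi 0) :=
      j0.const_mul _
    have k2 : IntegrableOn (fun y => m * (gd q' c' a' y * y ^ 2 - gd q c a y * y ^ 2)) (Ioi 0) :=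
      j2.const_mul _
    have k3 : IntegrableOn (fun y => (H b1 - m * b1) * (gd q' c' a' y - gd q c a y) +
        m * (gd q' c' a' y * y ^ 2 - gd q c a y * y ^ 2)) (Ioi 0) := k0.add k2
    rw [integral_sub jH k3, integral_sub iH' iH, integral_add k0 k2,
      integral_const_mul, integral_const_mul, integral_sub i0' i0, integral_sub i2' i2,
      m0, m0', m2, m2'] at hint
    linarith

/-- the law as a density -/
theorem nu_rep {θ : ℝ} (h0 : 0 < θ) (h1 : θ < 1 / 2) : ∃ c a : ℝ, 0 < c ∧ 0 < a ∧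
    ∀ F : ℝ → ℝ, ∫ y, F y ∂(nu θ) = ∫ y in Ioi (0 : ℝ), gd (1 / θ) c a y * F y := by
  have hq : 2 < 1 / θ := by
    rw [lt_div_iff₀ h0]
    linarith
  set q := 1 / θ with hqd
  have hq0 : 0 < q := by linarith
  have hZ := Zd_pos q hq
  have hsg : 0 < sg θ := by
    unfold sg
    refine Real.sqrt_pos.2 (mul_pos (Real.Gamma_pos_of_pos (by linarith))
      (Real.Gamma_pos_of_pos (by linarith)))
  set s := q * Zd q / sg θ with hs
  have hs0 : 0 < s := by positivity
  refine ⟨s⁻¹ * (s⁻¹ ^ (q - 2)) / Zd q, s⁻¹ ^ q, by positivity, by positivity, fun F => ?_⟩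
  have e1 : nu θ = (muZ q).map (fun z => s * z) := by
    unfold nu mu
    rw [Measure.map_map (by fun_prop) (by fun_prop)]
    congr 1
    funext z
    simp only [Function.comp, hs]
    ring
  rw [e1]
  have hme : MeasurableEmbedding (fun z : ℝ => s * z) :=
    (Homeomorph.mulLeft₀ s hs0.ne').measurableEmbedding
  rw [hme.integral_map, int_muZ q hq]
  have h2 := integral_comp_mul_left_Ioi
    (fun y => w0 q (s⁻¹ * y) / Zd q * F y) 0 hs0
  rw [mul_zero, smul_eq_mul] at h2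
  have h3 : ∫ z in Ioi (0 : ℝ), w0 q z / Zd q * F (s * z) =
      ∫ z in Ioi (0 : ℝ), w0 q (s⁻¹ * (s * z)) / Zd q * F (s * z) := by
    refine integral_congr_ae (ae_of_all _ fun z => ?_)
    show w0 q z / Zd q * F (s * z) = w0 q (s⁻¹ * (s * z)) / Zd q * F (s * z)
    rw [inv_mul_cancel_left₀ hs0.ne']
  rw [h3, h2, ← integral_const_mul]
  refine setIntegral_congr_fun measurableSet_Ioi fun y hy => ?_
  have hy0 : 0 < y := hy
  have hsi : 0 < s⁻¹ := inv_pos.2 hs0
  show s⁻¹ * (w0 q (s⁻¹ * y) / Zd q * F y) = gd q _ _ y * F y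
  unfold w0 gd
  rw [Real.mul_rpow hsi.le hy0.le, Real.mul_rpow hsi.le hy0.le, neg_mul]
  ring

theorem gCX : GCX := by
  intro hMom θ θ' h0 hle h1 H hconv hH hb
  rcases hle.eq_or_lt with rfl | hlt
  · exact le_rfl
  have h0' : 0 < θ' := h0.trans hlt
  have hθ : θ < 1 / 2 := hlt.trans h1
  obtain ⟨c, a, hc, ha, hF⟩ := nu_rep h0 hθ
  obtain ⟨c', a', hc', ha', hF'⟩ := nu_rep h0' h1
  have key : ∀ t : ℝ, 0 < t → t < 1 / 2 → ∫ _y, (1 : ℝ) ∂(nu t) = 1 ∧
      ∫ y, y ^ 2 ∂(nu t) = 1 := by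
    intro t ht ht1
    have hq : 2 < 1 / t := by
      rw [lt_div_iff₀ ht]
      linarith
    obtain ⟨hp, -, -, -⟩ := mu_basic hq
    have hprob : IsProbabilityMeasure (nu t) :=
      Measure.isProbabilityMeasure_map (by fun_prop)
    refine ⟨by simp, ?_⟩
    unfold nu
    have hpos : 0 < Real.Gamma (1 + t) * Real.Gamma (1 - t) :=
      mul_pos (Real.Gamma_pos_of_pos (by linarith)) (Real.Gamma_pos_of_pos (by linarith))
    rw [integral_map (by fun_prop) (by fun_prop)]
    have e : ∀ y : ℝ, (y / sg t) ^ 2 = (Real.Gamma (1 + t) * Real.Gamma (1 - t))⁻¹ * y ^ 2 := by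
      intro y
      rw [div_pow, sg, Real.sq_sqrt hpos.le]
      ring
    simp only [e]
    rw [integral_const_mul, (hMom t ht ht1 2 (by norm_num)).2]
    have e2 : (1 : ℝ) + (((2 : ℕ) : ℝ) - 1) * t = 1 + t := by
      push_cast
      ring
    rw [e2]
    simp only [pow_one, show 2 - 1 = 1 from rfl]
    exact inv_mul_cancel₀ hpos.ne'
  obtain ⟨k0, k2⟩ := key θ h0 hθ
  obtain ⟨k0', k2'⟩ := key θ' h0' h1
  rw [hF] at k0 k2
  rw [hF'] at k0' k2'
  rw [hF, hF']
  simp only [mul_one] at k0 k0'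
  have hq' : 2 < 1 / θ' := by
    rw [lt_div_iff₀ h0']
    linarith
  exact cmp hq' (one_div_lt_one_div_of_lt h0 hlt) hc hc' ha ha' k0 k0' k2 k2' hconv hH hb

end Pool.Agent.Helper93.PT
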