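import Pool.Agent.Helper53.PT.GoalsB

/-!
# MP_705522_gt, `q ∈ (2,4)`: the tail of the integral `K` (`GKTAIL`)
-/

namespace Pool.Agent.Helper93.PT

open MeasureTheory Set Filter Topology
open Pool.Agent.Helper53.PT

/-- Slopes of a bounded concave function vanishing at `0`. -/
theorem slope_le {I : ℝ → ℝ} {S : ℝ} (hc : ConcaveOn ℝ (Ici 0) I) (h0 : I 0 = 0)
    (hb : ∀ x, 0 ≤ x → I x ≤ S) {x y : ℝ} (hy : 0 ≤ y) (hyx : y < x) :
    I x - I y ≤ (x - y) / x * S := by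
  have hx : 0 < x := lt_of_le_of_lt hy hyx
  have h1 : (1 - y / x) • I 0 + (y / x) • I x ≤ I ((1 - y / x) • 0 + (y / x) • x) :=
    hc.2 (by simp) (by simp [hx.le]) (by rw [sub_nonneg, div_le_one hx]; exact hyx.le)
      (div_nonneg hy hx.le) (by ring)
  have h2 : (1 - y / x) • (0 : ℝ) + (y / x) • x = y := by
    simp only [smul_eq_mul, mul_zero, zero_add]
    exact div_mul_cancel₀ _ hx.ne'
  rw [h2, h0] at h1
  simp only [smul_eq_mul, mul_zero, zero_add] at h1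
  have h3 : (x - y) / x = 1 - y / x := by
    field_simp
  have h4 : 0 ≤ 1 - y / x := by
    rw [sub_nonneg, div_le_one hx]; exact hyx.le
  rw [h3]
  have := mul_le_mul_of_nonneg_left (hb x hx.le) h4
  linarith

theorem kr_le {θ S1 S2 : ℝ} {I1 I2 : ℝ → ℝ} (hM : FM θ I1 I2 S1 S2) {x y F0 F1 : ℝ} (hy : 0 ≤ y)
    (hyx : y < x) (h0 : |f0 θ x| ≤ F0) (h1 : |f1 θ x| ≤ F1) :
    |kr θ x y| ≤ (x - y) / x * (F1 * S1 / 2 + F0 * S2) := by
  have hx : 0 < x := lt_of_le_of_lt hy hyx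
  have e : kr θ x y = f1 θ x * (f0 θ y - f0 θ x) - f0 θ x * (f1 θ y - f1 θ x) := by
    unfold kr; ring
  have a1 := hM.h1 x y hy hyx.le
  have a2 := hM.h2 x y hy hyx.le
  have b1 := slope_le hM.c1 hM.i1 hM.b1 hy hyx
  have b2 := slope_le hM.c2 hM.i2 hM.b2 hy hyx
  have c1 : |f0 θ y - f0 θ x| ≤ (x - y) / x * S1 / 2 := by linarith
  have c2 : |f1 θ y - f1 θ x| ≤ (x - y) / x * S2 := by linarith
  rw [e]
  calc |f1 θ x * (f0 θ y - f0 θ x) - f0 θ x * (f1 θ y - f1 θ x)|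
      ≤ |f1 θ x * (f0 θ y - f0 θ x)| + |f0 θ x * (f1 θ y - f1 θ x)| := abs_sub _ _
    _ = |f1 θ x| * |f0 θ y - f0 θ x| + |f0 θ x| * |f1 θ y - f1 θ x| := by rw [abs_mul, abs_mul]
    _ ≤ F1 * ((x - y) / x * S1 / 2) + F0 * ((x - y) / x * S2) := by
        have p1 := mul_le_mul h1 c1 (abs_nonneg _) (le_trans (abs_nonneg _) h1)
        have p2 := mul_le_mul h0 c2 (abs_nonneg _) (le_trans (abs_nonneg _) h0)
        linarith
    _ = (x - y) / x * (F1 * S1 / 2 + F0 * S2) := by ring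

theorem prod_le {θ : ℝ} {n : ℕ} (t : Fin n → ℝ) (S : Finset (Fin n)) {X x c : ℝ}
    (hs : ∀ y, 0 ≤ y → y ≤ x → |f0 θ y| ≤ Real.exp (c * y))
    (ht : ∀ l ∈ S, 0 ≤ t l * X ∧ t l * X ≤ x) :
    |∏ l ∈ S, f0 θ (t l * X)| ≤ Real.exp (c * ((∑ l ∈ S, t l) * X)) := by
  rw [Finset.abs_prod, Finset.sum_mul, Finset.mul_sum, Real.exp_sum]
  exact Finset.prod_le_prod (fun l _ => abs_nonneg _) (fun l hl => hs _ (ht l hl).1 (ht l hl).2)

theorem sum_erase_two {n : ℕ} {t : Fin n → ℝ} (ht : Sx t) {i j : Fin n} (hij : j ≠ i) :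
    ∑ l ∈ (Finset.univ.erase i).erase j, t l = 1 - t i - t j := by
  have h1 := Finset.add_sum_erase Finset.univ t (Finset.mem_univ i)
  have h2 := Finset.add_sum_erase (Finset.univ.erase i) t
    (Finset.mem_erase.2 ⟨hij, Finset.mem_univ j⟩)
  have h3 := ht.2
  linarith

/-- the integral of a power on a half line -/
theorem tail_int {ξs p : ℝ} (hs : 0 < ξs) (hp : 1 < p) :
    IntegrableOn (fun ξ : ℝ => (ξs / ξ) ^ p) (Ioi ξs) ∧
    ∫ ξ in Ioi ξs, (ξs / ξ) ^ p = ξs / (p - 1) := by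
  have e : ∀ ξ ∈ Ioi ξs, (ξs / ξ) ^ p = ξs ^ p * ξ ^ (-p) := by
    intro ξ hξ
    have hξ0 : 0 < ξ := lt_trans hs hξ
    rw [Real.div_rpow hs.le hξ0.le, Real.rpow_neg hξ0.le, div_eq_mul_inv]
  constructor
  · refine IntegrableOn.congr_fun ?_ (fun ξ hξ => (e ξ hξ).symm) measurableSet_Ioi
    exact (integrableOn_Ioi_rpow_of_lt (by linarith) hs).const_mul _
  · rw [setIntegral_congr_fun measurableSet_Ioi e, integral_const_mul,
      integral_Ioi_rpow_of_lt (by linarith) hs]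
    have h1 : ξs ^ p * ξs ^ (-p + 1) = ξs := by
      rw [← Real.rpow_add hs]
      have : p + (-p + 1) = 1 := by ring
      rw [this, Real.rpow_one]
    have h2 : p - 1 ≠ 0 := by linarith
    have h3 : -p + 1 ≠ 0 := by linarith
    have h4 : ξs ^ p * (-ξs ^ (-p + 1) / (-p + 1)) = -(ξs ^ p * ξs ^ (-p + 1)) / (-p + 1) := by ring
    rw [h4, h1]
    field_simp
    ring

theorem gKTAIL : GKTAIL := by
  intro hSIG θ z m xW xD yN g c0 c1 c2 S1 S2 I1 I2 hA hP hM hc0 hc1 hg hf n t i j a1 ξs Ra d0 d1 T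
    ht hji hl ha1 hai hRa hRi hξs h64 hd0 hd1 hd0p hp hT
  have hθ0 : 0 < θ := by linarith [hA.th0]
  have hθ1 := hA.th1
  have hg0 := hP.g0
  have hij : j ≠ i := by
    rintro rfl
    exact lt_irrefl _ hji
  have ha : 0 < t i := lt_of_lt_of_le ha1 hai
  have hb : 0 ≤ t j := ht.1 j
  have hS1 : 0 ≤ S1 := by
    have := hM.b1 0 le_rfl
    rwa [hM.i1] at this
  have hS2 : 0 ≤ S2 := by
    have := hM.b2 0 le_rfl
    rwa [hM.i2] at this
  set p : ℝ := 2 * g * (1 + Ra) with hpdef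
  set xs : ℝ := a1 * ξs ^ 2 with hxs
  have hxs0 : 0 < xs := by linarith
  have hd1p : 0 ≤ d1 := le_trans (mul_nonneg hc1 (Real.rpow_nonneg (by positivity) _)) hd1
  set C : ℝ := (d1 * S1 / 2 + d0 * S2) / a1 * d0 ^ Ra with hC
  have hC0 : 0 ≤ C := by
    rw [hC]
    have : 0 ≤ d0 ^ Ra := Real.rpow_nonneg hd0p.le _
    positivity
  have hc01 : c0 < 1 := by
    have : Real.log c0 < 0 := by linarith
    exact (Real.log_neg_iff hc0).1 this
  have key : ∀ ξ ∈ Ioi ξs, |KI θ t i j ξ| ≤ (t i - t j) * C * (ξs / ξ) ^ p := by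
    intro ξ hξ
    have hξ' : ξs < ξ := hξ
    have hξ0 : 0 < ξ := lt_trans hξs hξ'
    set r : ℝ := ξs / ξ with hr
    have hr0 : 0 < r := div_pos hξs hξ0
    have hr1 : r ≤ 1 := by
      rw [hr, div_le_one hξ0]; exact hξ'.le
    set x : ℝ := t i * ξ ^ 2 with hx
    set y : ℝ := t j * ξ ^ 2 with hy
    have hx0 : 0 < x := by positivity
    have hy0 : 0 ≤ y := by positivity
    have hyx : y < x := by
      rw [hx, hy]
      exact mul_lt_mul_of_pos_right hji (by positivity)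
    have hxx : xs ≤ x * r ^ 2 := by
      have : x * r ^ 2 = t i * ξs ^ 2 := by
        rw [hx, hr]; field_simp
      rw [this, hxs]
      exact mul_le_mul_of_nonneg_right hai (by positivity)
    have hxx1 : xs ≤ x := by
      have : x * r ^ 2 ≤ x * 1 := mul_le_mul_of_nonneg_left (by nlinarith) hx0.le
      linarith
    have hx64 : 64 ≤ x := by linarith
    -- `64/x ≤ (64/xs) r²`
    have hq : 64 / x ≤ 64 / xs * r ^ 2 := by
      rw [div_mul_eq_mul_div, div_le_div_iff₀ hx0 hxs0]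
      nlinarith
    have hq0 : 0 < 64 / x := by positivity
    have hq1 : 64 / x ≤ 1 := by
      rw [div_le_one hx0]; exact hx64
    have hsplit : ∀ s : ℝ, 0 ≤ s → (64 / x) ^ s ≤ (64 / xs) ^ s * r ^ (2 * s) := by
      intro s hs
      have h1 := Real.rpow_le_rpow hq0.le hq hs
      rw [Real.mul_rpow (by positivity) (by positivity)] at h1
      have h2 : (r ^ 2) ^ s = r ^ (2 * s) := by
        rw [Real.rpow_mul hr0.le]
        norm_num
      rwa [h2] at h1
    set D : ℝ := c0 * (64 / x) ^ g with hD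
    have hDp : 0 < D := mul_pos hc0 (Real.rpow_pos_of_pos hq0 _)
    have hD1 : D ≤ 1 := by
      have : (64 / x) ^ g ≤ 1 := Real.rpow_le_one hq0.le hq1 (by linarith)
      have h2 : c0 * (64 / x) ^ g ≤ 1 * 1 := mul_le_mul hc01.le this (Real.rpow_nonneg hq0.le _) (by norm_num)
      rw [hD]; linarith
    have hDr : D ≤ d0 * r ^ (2 * g) := by
      calc D ≤ c0 * ((64 / xs) ^ g * r ^ (2 * g)) := mul_le_mul_of_nonneg_left (hsplit g (by linarith)) hc0.le
        _ = c0 * (64 / xs) ^ g * r ^ (2 * g) := by ring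
        _ ≤ d0 * r ^ (2 * g) := mul_le_mul_of_nonneg_right hd0 (Real.rpow_nonneg hr0.le _)
    have hF0 : |f0 θ x| ≤ d0 * r ^ (2 * g) := le_trans (hP.p0 x hx64) hDr
    have hF1 : |f1 θ x| ≤ d1 * r ^ (2 * g) := by
      calc |f1 θ x| ≤ c1 * (64 / x) ^ (g + 1) := hP.p1 x hx64
        _ ≤ c1 * ((64 / xs) ^ (g + 1) * r ^ (2 * (g + 1))) :=
            mul_le_mul_of_nonneg_left (hsplit (g + 1) (by linarith)) hc1
        _ = c1 * (64 / xs) ^ (g + 1) * r ^ (2 * (g + 1)) := by ring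
        _ ≤ d1 * r ^ (2 * (g + 1)) := mul_le_mul_of_nonneg_right hd1 (Real.rpow_nonneg hr0.le _)
        _ ≤ d1 * r ^ (2 * g) := by
            refine mul_le_mul_of_nonneg_left ?_ hd1p
            exact Real.rpow_le_rpow_of_exponent_ge hr0 hr1 (by linarith)
    have hkr : |kr θ x y| ≤ (t i - t j) / a1 * ((d1 * S1 / 2 + d0 * S2) * r ^ (2 * g)) := by
      have h1 := kr_le hM hy0 hyx hF0 hF1
      have h2 : (x - y) / x = (t i - t j) / t i := by
        rw [hx, hy]; field_simp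
      rw [h2] at h1
      have h3 : d1 * r ^ (2 * g) * S1 / 2 + d0 * r ^ (2 * g) * S2 = (d1 * S1 / 2 + d0 * S2) * r ^ (2 * g) := by
        ring
      rw [h3] at h1
      refine le_trans h1 (mul_le_mul_of_nonneg_right ?_ ?_)
      · exact div_le_div_of_nonneg_left (by linarith) ha1 hai
      · have : 0 ≤ r ^ (2 * g) := Real.rpow_nonneg hr0.le _
        positivity
    have hprod : |∏ l ∈ (Finset.univ.erase i).erase j, f0 θ (t l * ξ ^ 2)| ≤ d0 ^ Ra * r ^ (2 * g * Ra) := by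
      have hs := (hSIG θ).2.2 g c0 c1 c2 hP hc0 hg hf x hx64
      have h1 := prod_le (θ := θ) t ((Finset.univ.erase i).erase j) (X := ξ ^ 2) (x := x)
        (c := Real.log D / x) hs (by
          intro l _
          refine ⟨mul_nonneg (ht.1 l) (by positivity), ?_⟩
          exact mul_le_mul_of_nonneg_right (hl l).1 (by positivity))
      rw [sum_erase_two ht hij] at h1
      have hlog : Real.log D ≤ 0 := Real.log_nonpos hDp.le hD1
      have h2 : Real.log D / x * ((1 - t i - t j) * ξ ^ 2) ≤ Real.log D * Ra := by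
        have e1 : Real.log D / x * ((1 - t i - t j) * ξ ^ 2) = Real.log D * ((1 - t i - t j) / t i) := by
          rw [hx]; field_simp
        rw [e1]
        have h3 : Ra ≤ (1 - t i - t j) / t i := by
          rw [le_div_iff₀ ha]; exact hRi
        exact mul_le_mul_of_nonpos_left h3 hlog
      calc |∏ l ∈ (Finset.univ.erase i).erase j, f0 θ (t l * ξ ^ 2)|
          ≤ Real.exp (Real.log D / x * ((1 - t i - t j) * ξ ^ 2)) := h1
        _ ≤ Real.exp (Real.log D * Ra) := Real.exp_le_exp.2 h2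
        _ = D ^ Ra := (Real.rpow_def_of_pos hDp _).symm
        _ ≤ (d0 * r ^ (2 * g)) ^ Ra := Real.rpow_le_rpow hDp.le hDr hRa
        _ = d0 ^ Ra * r ^ (2 * g * Ra) := by
            rw [Real.mul_rpow hd0p.le (Real.rpow_nonneg hr0.le _), ← Real.rpow_mul hr0.le]
    have hrp : r ^ p = r ^ (2 * g) * r ^ (2 * g * Ra) := by
      rw [← Real.rpow_add hr0, hpdef]
      congr 1; ring
    have hKI : KI θ t i j ξ = kr θ x y * ∏ l ∈ (Finset.univ.erase i).erase j, f0 θ (t l * ξ ^ 2) := rfl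
    rw [hKI, abs_mul, hrp]
    calc |kr θ x y| * |∏ l ∈ (Finset.univ.erase i).erase j, f0 θ (t l * ξ ^ 2)|
        ≤ ((t i - t j) / a1 * ((d1 * S1 / 2 + d0 * S2) * r ^ (2 * g))) * (d0 ^ Ra * r ^ (2 * g * Ra)) :=
          mul_le_mul hkr hprod (abs_nonneg _) (le_trans (abs_nonneg _) hkr)
      _ = (t i - t j) * C * (r ^ (2 * g) * r ^ (2 * g * Ra)) := by
          rw [hC]; ring
  have hcont : Continuous (KI θ t i j) := by
    have e : KI θ t i j = fun ξ => (f1 θ (t i * ξ ^ 2) * f0 θ (t j * ξ ^ 2) -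
        f0 θ (t i * ξ ^ 2) * f1 θ (t j * ξ ^ 2)) * ∏ l ∈ (Finset.univ.erase i).erase j, f0 θ (t l * ξ ^ 2) := rfl
    have k0 := continuous_f0 hθ0 hθ1
    have k1 := continuous_f1 hθ0 hθ1
    rw [e]
    fun_prop
  have htail := tail_int hξs hp
  have hdom : IntegrableOn (fun ξ : ℝ => (t i - t j) * C * (ξs / ξ) ^ p) (Ioi ξs) := htail.1.const_mul _
  have hint : IntegrableOn (KI θ t i j) (Ioi ξs) := by
    refine Integrable.mono' hdom hcont.aestronglyMeasurable ?_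
    refine (ae_restrict_iff' measurableSet_Ioi).2 (Filter.Eventually.of_forall fun ξ hξ => ?_)
    rw [Real.norm_eq_abs]
    exact key ξ hξ
  refine ⟨hint, ?_⟩
  have hnorm : ‖∫ ξ in Ioi ξs, KI θ t i j ξ‖ ≤ ∫ ξ in Ioi ξs, (t i - t j) * C * (ξs / ξ) ^ p := by
    refine norm_integral_le_of_norm_le hdom ?_
    refine (ae_restrict_iff' measurableSet_Ioi).2 (Filter.Eventually.of_forall fun ξ hξ => ?_)
    rw [Real.norm_eq_abs]
    exact key ξ hξ
  rw [integral_const_mul, htail.2, Real.norm_eq_abs] at hnorm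
  have hp1 : 0 < p - 1 := by linarith
  have hfin : (t i - t j) * C * (ξs / (p - 1)) ≤ (t i - t j) * T := by
    rw [mul_assoc]
    refine mul_le_mul_of_nonneg_left ?_ (by linarith)
    rw [mul_div_assoc', div_le_iff₀ hp1]
    exact hT
  have := neg_abs_le (∫ ξ in Ioi ξs, KI θ t i j ξ)
  linarith

end Pool.Agent.Helper93.PT
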